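import Pool.Agent.H73.LPC.Stmts

/-!
Row ID2 of the board lpc: the identity theorem on `ℂ × ℂ` (copy of the row IDN of the board phs, helper22).
-/

set_option autoImplicit false

open Set Filter Topology MeasureTheory Metric

namespace Pool.LPC

open Pool.PHS

theorem id2_ball (F : Type) [NormedAddCommGroup F] [NormedSpace ℂ F] [CompleteSpace F]
    (f g : ℂ × ℂ → F) (p q z : ℂ × ℂ) (r : ℝ)
    (hf : DifferentiableOn ℂ f (ball p r)) (hg : DifferentiableOn ℂ g (ball p r))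
    (hq : q ∈ ball p r) (hz : z ∈ ball p r) (he : ∀ᶠ y in 𝓝 q, f y = g y) : f z = g z := by
  obtain ⟨φ, hφ⟩ : ∃ φ : ℂ → ℂ × ℂ, φ = fun t => q + t • (z - q) := ⟨_, rfl⟩
  have hφd : Differentiable ℂ φ := by
    rw [hφ]
    exact (differentiable_const q).add (differentiable_id.smul_const (z - q))
  have hφ0 : φ 0 = q := by rw [hφ]; simp
  have hφ1 : φ 1 = z := by rw [hφ]; simp
  have hSo : IsOpen (φ ⁻¹' ball p r) := isOpen_ball.preimage hφd.continuous
  have hSc : Convex ℝ (φ ⁻¹' ball p r) := by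
    intro s hs t ht a b ha hb hab
    have h1 : φ (a • s + b • t) = a • φ s + b • φ t := by
      rw [hφ]
      show q + (a • s + b • t) • (z - q) = a • (q + s • (z - q)) + b • (q + t • (z - q))
      have h2 : q = (a + b) • q := by rw [hab, one_smul]
      rw [add_smul, smul_add, smul_add, smul_assoc, smul_assoc]
      nth_rewrite 1 [h2]
      rw [add_smul]
      abel
    show φ (a • s + b • t) ∈ ball p r
    rw [h1]
    exact convex_ball p r hs ht ha hb hab
  have hfa : AnalyticOnNhd ℂ (f ∘ φ) (φ ⁻¹' ball p r) :=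
    (hf.comp hφd.differentiableOn (fun t ht => ht)).analyticOnNhd hSo
  have hga : AnalyticOnNhd ℂ (g ∘ φ) (φ ⁻¹' ball p r) :=
    (hg.comp hφd.differentiableOn (fun t ht => ht)).analyticOnNhd hSo
  have h0 : (0 : ℂ) ∈ φ ⁻¹' ball p r := by
    show φ 0 ∈ ball p r
    rw [hφ0]
    exact hq
  have h1 : (1 : ℂ) ∈ φ ⁻¹' ball p r := by
    show φ 1 ∈ ball p r
    rw [hφ1]
    exact hz
  have hev : (f ∘ φ) =ᶠ[𝓝 0] (g ∘ φ) := by
    have hc : Tendsto φ (𝓝 0) (𝓝 q) := by
      have := hφd.continuous.tendsto 0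
      rwa [hφ0] at this
    exact hc.eventually he
  have h2 := hfa.eqOn_of_preconnected_of_eventuallyEq hga hSc.isPreconnected h0 hev h1
  have h3 : f (φ 1) = g (φ 1) := h2
  rwa [hφ1] at h3

theorem ID2_thm : ID2Stmt := by
  intro F _ _ _ f g U W hU hUc hf hg hW hWU hWne hfg
  obtain ⟨A, hA⟩ : ∃ A : Set (ℂ × ℂ), A = {p | ∀ᶠ y in 𝓝 p, f y = g y} := ⟨_, rfl⟩
  have hAo : IsOpen A := by
    rw [hA]
    exact isOpen_setOfPred_eventually_nhds
  have hne : (U ∩ A).Nonempty := by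
    obtain ⟨w, hw⟩ := hWne
    refine ⟨w, hWU hw, ?_⟩
    rw [hA]
    show ∀ᶠ y in 𝓝 w, f y = g y
    filter_upwards [hW.mem_nhds hw] with y hy using hfg hy
  have hcl : closure A ∩ U ⊆ A := by
    rintro p ⟨hpc, hpU⟩
    obtain ⟨r, hr, hrU⟩ := Metric.isOpen_iff.mp hU p hpU
    obtain ⟨q, hqA, hqp⟩ := Metric.mem_closure_iff.mp hpc r hr
    have hqb : q ∈ ball p r := by
      rw [mem_ball, dist_comm]
      exact hqp
    rw [hA] at hqA ⊢
    show ∀ᶠ y in 𝓝 p, f y = g y
    filter_upwards [ball_mem_nhds p hr] with z hz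
    exact id2_ball F f g p q z r (hf.mono hrU) (hg.mono hrU) hqb hz hqA
  have hsub : U ⊆ A := hUc.subset_of_closure_inter_subset hAo hne hcl
  intro z hz
  have h1 := hsub hz
  rw [hA] at h1
  exact h1.self_of_nhds

end Pool.LPC
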